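import Mathlib

/-!
# The algebra of the curvature term on symmetric tensors of degree three
-/

set_option autoImplicit false

namespace Pool.Agent.X181.LK

open Finset

/-- components of tensors of degree three on a space of dimension four -/
abbrev C3 := Fin 4 → Fin 4 → Fin 4 → ℝ

variable (J : Fin 4 → Fin 4 → ℝ)

def J1 (t : C3) : C3 := fun a b c => ∑ i, J a i * t i b c
def J2 (t : C3) : C3 := fun a b c => ∑ i, J b i * t a i c
def J3 (t : C3) : C3 := fun a b c => ∑ i, J c i * t a b i

def ip (t s : C3) : ℝ := ∑ a, ∑ b, ∑ c, t a b c * s a b c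

variable {J}

/-- `J` is a skew-symmetric orthogonal matrix -/
structure Cx (J : Fin 4 → Fin 4 → ℝ) : Prop where
  skew : ∀ a b, J a b = -J b a
  orth : ∀ a c, ∑ b, J a b * J c b = if a = c then 1 else 0

theorem Cx.sq (h : Cx J) (a c : Fin 4) : ∑ b, J a b * J b c = if a = c then -1 else 0 := by
  have h1 : ∑ b, J a b * J b c = -∑ b, J a b * J c b := by
    rw [← sum_neg_distrib]
    exact sum_congr rfl fun b _ => by rw [h.skew b c]; ring
  rw [h1, h.orth]
  split_ifs <;> simp

theorem sq_aux (h : Cx J) (f : Fin 4 → ℝ) (a : Fin 4) :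
    ∑ i, J a i * ∑ k, J i k * f k = -f a := by
  have h1 : ∑ i, J a i * ∑ k, J i k * f k = ∑ k, (∑ i, J a i * J i k) * f k := by
    simp only [mul_sum, sum_mul]
    rw [sum_comm]
    exact sum_congr rfl fun k _ => sum_congr rfl fun i _ => by ring
  rw [h1]
  simp only [h.sq]
  simp

theorem J1_sq (h : Cx J) (t : C3) : J1 J (J1 J t) = fun a b c => -t a b c := by
  funext a b c
  exact sq_aux h (fun k => t k b c) a

theorem J2_sq (h : Cx J) (t : C3) : J2 J (J2 J t) = fun a b c => -t a b c := by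
  funext a b c
  exact sq_aux h (fun k => t a k c) b

theorem J3_sq (h : Cx J) (t : C3) : J3 J (J3 J t) = fun a b c => -t a b c := by
  funext a b c
  exact sq_aux h (fun k => t a b k) c

theorem J12 (t : C3) : J1 J (J2 J t) = J2 J (J1 J t) := by
  funext a b c
  simp only [J1, J2, mul_sum]
  rw [sum_comm]
  exact sum_congr rfl fun k _ => sum_congr rfl fun i _ => by ring

theorem J13 (t : C3) : J1 J (J3 J t) = J3 J (J1 J t) := by
  funext a b c
  simp only [J1, J3, mul_sum]
  rw [sum_comm]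
  exact sum_congr rfl fun k _ => sum_congr rfl fun i _ => by ring

theorem J23 (t : C3) : J2 J (J3 J t) = J3 J (J2 J t) := by
  funext a b c
  simp only [J2, J3, mul_sum]
  rw [sum_comm]
  exact sum_congr rfl fun k _ => sum_congr rfl fun i _ => by ring

theorem ip_comm (t s : C3) : ip t s = ip s t := by
  unfold ip
  exact sum_congr rfl fun a _ => sum_congr rfl fun b _ => sum_congr rfl fun c _ => mul_comm _ _

theorem ip_J1 (h : Cx J) (t s : C3) : ip (J1 J t) s = -ip t (J1 J s) := by
  simp only [ip, J1, sum_mul, mul_sum]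
  rw [← sum_neg_distrib]
  have h1 : ∑ a, ∑ b, ∑ c, ∑ i, J a i * t i b c * s a b c =
      ∑ i, ∑ b, ∑ c, ∑ a, J a i * t i b c * s a b c := by
    calc _ = ∑ a, ∑ i, ∑ b, ∑ c, J a i * t i b c * s a b c := by
          refine sum_congr rfl fun a _ => ?_
          rw [sum_comm (s := (univ : Finset (Fin 4))) (t := univ)
            (f := fun i b => ∑ c, J a i * t i b c * s a b c)]
          exact sum_congr rfl fun b _ => sum_comm
      _ = ∑ i, ∑ a, ∑ b, ∑ c, J a i * t i b c * s a b c := sum_comm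
      _ = _ := by
          refine sum_congr rfl fun i _ => ?_
          rw [sum_comm]
          exact sum_congr rfl fun b _ => sum_comm
  rw [h1]
  refine sum_congr rfl fun i _ => ?_
  rw [← sum_neg_distrib]
  refine sum_congr rfl fun b _ => ?_
  rw [← sum_neg_distrib]
  refine sum_congr rfl fun c _ => ?_
  rw [← sum_neg_distrib]
  refine sum_congr rfl fun a _ => ?_
  rw [h.skew a i]
  ring

/-- cyclic rotation of the indices -/
def rot (t : C3) : C3 := fun a b c => t b c a

theorem ip_rot (t s : C3) : ip (rot t) (rot s) = ip t s := by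
  unfold ip rot
  rw [sum_comm]
  refine sum_congr rfl fun b _ => ?_
  rw [sum_comm]

theorem J2_rot (t : C3) : J2 J (rot t) = rot (J1 J t) := by
  funext a b c
  rfl

theorem J1_rot (t : C3) : J1 J (rot t) = rot (J3 J t) := by
  funext a b c
  rfl

theorem J3_rot (t : C3) : J3 J (rot t) = rot (J2 J t) := by
  funext a b c
  rfl

theorem rot3 (t : C3) : rot (rot (rot t)) = t := rfl

theorem ip_J2 (h : Cx J) (t s : C3) : ip (J2 J t) s = -ip t (J2 J s) := by
  have h1 : t = rot (rot (rot t)) := rfl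
  have h2 : s = rot (rot (rot s)) := rfl
  rw [h1, h2, J2_rot, J2_rot, ip_rot, ip_rot, ip_J1 h]

theorem ip_J3 (h : Cx J) (t s : C3) : ip (J3 J t) s = -ip t (J3 J s) := by
  have h1 : t = rot (rot (rot t)) := rfl
  have h2 : s = rot (rot (rot s)) := rfl
  rw [h1, h2, J3_rot, J3_rot, ip_rot, ip_rot, ip_J2 h]

/-- symmetric tensors -/
structure Sy (t : C3) : Prop where
  s12 : ∀ a b c, t a b c = t b a c
  s23 : ∀ a b c, t a b c = t a c b

theorem Sy.rot {t : C3} (h : Sy t) : rot t = t := by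
  funext a b c
  rw [LK.rot, h.s23, h.s12]

theorem ip_add_left (s t u : C3) : ip (fun a b c => s a b c + t a b c) u = ip s u + ip t u := by
  unfold ip
  simp only [add_mul, sum_add_distrib]

theorem ip_neg_left (s u : C3) : ip (fun a b c => -s a b c) u = -ip s u := by
  unfold ip
  simp only [neg_mul, sum_neg_distrib]

theorem ip_neg_right (s u : C3) : ip s (fun a b c => -u a b c) = -ip s u := by
  rw [ip_comm, ip_neg_left, ip_comm]

theorem X_eq2 {t : C3} (hs : Sy t) : ip t (J2 J (J3 J t)) = ip t (J1 J (J2 J t)) := by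
  have h1 := ip_rot t (J1 J (J2 J t))
  rw [hs.rot, ← J2_rot, ← J3_rot, hs.rot] at h1
  exact h1

theorem X_eq3 {t : C3} (hs : Sy t) : ip t (J1 J (J3 J t)) = ip t (J1 J (J2 J t)) := by
  have h1 := ip_rot t (J2 J (J3 J t))
  rw [hs.rot, ← J3_rot, ← J1_rot, hs.rot, ← J13] at h1
  rw [h1, X_eq2 hs]

/-- **The key inequality**. -/
theorem X_le (h : Cx J) {t : C3} (hs : Sy t) : 3 * ip t (J1 J (J2 J t)) ≤ ip t t := by
  obtain ⟨A, hA⟩ : ∃ A, A = J1 J (J2 J t) := ⟨_, rfl⟩
  obtain ⟨B, hB⟩ : ∃ B, B = J2 J (J3 J t) := ⟨_, rfl⟩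
  obtain ⟨C, hC⟩ : ∃ C, C = J1 J (J3 J t) := ⟨_, rfl⟩
  have hpos : 0 ≤ ip (fun a b c => t a b c - A a b c - B a b c - C a b c)
      (fun a b c => t a b c - A a b c - B a b c - C a b c) := by
    unfold ip
    exact sum_nonneg fun a _ => sum_nonneg fun b _ => sum_nonneg fun c _ => mul_self_nonneg _
  have hexp : ip (fun a b c => t a b c - A a b c - B a b c - C a b c)
      (fun a b c => t a b c - A a b c - B a b c - C a b c) =
      ip t t + ip A A + ip B B + ip C C - 2 * ip t A - 2 * ip t B - 2 * ip t C +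
      2 * ip A B + 2 * ip A C + 2 * ip B C := by
    unfold ip
    simp only [mul_sum, ← sum_add_distrib, ← sum_sub_distrib]
    exact sum_congr rfl fun a _ => sum_congr rfl fun b _ => sum_congr rfl fun c _ => by ring
  have tA : ip t A = ip t (J1 J (J2 J t)) := by rw [hA]
  have tB : ip t B = ip t (J1 J (J2 J t)) := by rw [hB, X_eq2 hs]
  have tC : ip t C = ip t (J1 J (J2 J t)) := by rw [hC, X_eq3 hs]
  have nn : ∀ s : C3, (fun a b c => -(fun a b c => -s a b c) a b c) = s := fun s => by
    funext a b c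
    simp
  have AA : ip A A = ip t t := by
    rw [hA, ip_J1 h, J1_sq h, ip_neg_right, neg_neg, ip_J2 h, J2_sq h, ip_neg_right, neg_neg]
  have BB : ip B B = ip t t := by
    rw [hB, ip_J2 h, J2_sq h, ip_neg_right, neg_neg, ip_J3 h, J3_sq h, ip_neg_right, neg_neg]
  have CC : ip C C = ip t t := by
    rw [hC, ip_J1 h, J1_sq h, ip_neg_right, neg_neg, ip_J3 h, J3_sq h, ip_neg_right, neg_neg]
  -- mixed products
  have AB : ip A B = -ip t (J1 J (J3 J t)) := by
    rw [hA, hB, J12, ip_J2 h, J2_sq h, ip_neg_right, neg_neg, ip_J1 h]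
  have AC : ip A C = -ip t (J2 J (J3 J t)) := by
    rw [hA, hC, ip_J1 h, J1_sq h, ip_neg_right, neg_neg, ip_J2 h]
  have BC : ip B C = -ip t (J1 J (J2 J t)) := by
    rw [hB, hC, J23, J13, ip_J3 h, J3_sq h, ip_neg_right, neg_neg, ip_J2 h, ← J12]
  rw [X_eq3 hs] at AB
  rw [X_eq2 hs] at AC
  rw [hexp, AA, BB, CC, tA, tB, tC, AB, AC, BC] at hpos
  linarith

end Pool.Agent.X181.LK
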