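import Mathlib
import Pool.Agent.X181.Gauss

/-!
# The curvature term of the Lichnerowicz Laplacian on symmetric tensors
-/

set_option autoImplicit false

namespace Pool.Agent.X181.LK

open scoped ContDiff

/-- `g` is a smooth Riemannian metric on the subset `U` of `ℝⁿ`. -/
structure IsRiemMetric {n : ℕ} (U : Set (Fin n → ℝ))
    (g : (Fin n → ℝ) → (Fin n → ℝ) → (Fin n → ℝ) → ℝ) : Prop where
  smooth : ∀ u v, ContDiffOn ℝ ∞ (fun x => g x u v) U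
  symm : ∀ x ∈ U, ∀ u v, g x u v = g x v u
  add : ∀ x ∈ U, ∀ u u' v, g x (u + u') v = g x u v + g x u' v
  smul : ∀ x ∈ U, ∀ (r : ℝ) (u v : Fin n → ℝ), g x (r • u) v = r * g x u v
  pos : ∀ x ∈ U, ∀ u, u ≠ 0 → 0 < g x u u

/-- The action of the endomorphism `A` as a derivation on the tensor `T` of degree `k`. -/
def act {n k : ℕ} (A : (Fin n → ℝ) → Fin n → ℝ) (T : (Fin k → Fin n → ℝ) → ℝ)
    (X : Fin k → Fin n → ℝ) : ℝ :=
  -∑ j, T (Function.update X j (A (X j)))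

/-- The curvature term of the Lichnerowicz Laplacian at `x`, in the basis `e`:
`Ric_L(T)(X₁, …, X_k) = ∑_i ∑_a (R(e_a, X_i) T)(X₁, …, e_a, …, X_k)`. -/
noncomputable def RicL {n k : ℕ} (Γ : (Fin n → ℝ) → (Fin n → ℝ) →L[ℝ] (Fin n → ℝ) →L[ℝ] Fin n → ℝ)
    (x : Fin n → ℝ) (e : Fin n → Fin n → ℝ) (T : (Fin k → Fin n → ℝ) → ℝ)
    (X : Fin k → Fin n → ℝ) : ℝ :=
  ∑ i, ∑ a, act (Riem Γ x (e a) (X i)) T (Function.update X i (e a))

/-- Condition `(L_k)`: `g(Ric_L(T), T) ≥ 0` for all symmetric tensors `T` of degree `k` at all points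
of `U`; the sum is the inner product, `e` is any orthonormal basis. -/
def CondL {n : ℕ} (k : ℕ) (U : Set (Fin n → ℝ))
    (g : (Fin n → ℝ) → (Fin n → ℝ) → (Fin n → ℝ) → ℝ)
    (Γ : (Fin n → ℝ) → (Fin n → ℝ) →L[ℝ] (Fin n → ℝ) →L[ℝ] Fin n → ℝ) : Prop :=
  ∀ x ∈ U, ∀ e : Fin n → Fin n → ℝ, (∀ a b, g x (e a) (e b) = if a = b then 1 else 0) →
    ∀ T : MultilinearMap ℝ (fun _ : Fin k => Fin n → ℝ) ℝ,
      (∀ (σ : Equiv.Perm (Fin k)) (X : Fin k → Fin n → ℝ), T (X ∘ σ) = T X) →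
        0 ≤ ∑ i : Fin k → Fin n, RicL Γ x e T (e ∘ i) * T (e ∘ i)

end Pool.Agent.X181.LK
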