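import Pool.Agent.X181.LK.Main

/-!
# Failure of `(L_2)` at the origin
-/

set_option autoImplicit false

namespace Pool.Agent.X181.LK

open Finset

theorem upd2 {α : Type*} [DecidableEq (Fin 2)] (m : Fin 2 → α) (x : α) :
    (Function.update m 0 x 0 = x ∧ Function.update m 0 x 1 = m 1) ∧
      Function.update m 1 x 0 = m 0 ∧ Function.update m 1 x 1 = x := by
  refine ⟨⟨?_, ?_⟩, ?_, ?_⟩ <;> simp

/-- the symmetric tensor -/
def T2 : MultilinearMap ℝ (fun _ : Fin 2 => E4) ℝ where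
  toFun X := q1 (X 0) (X 1)
  map_update_add' := by
    intro _ m i x y
    fin_cases i
    · show q1 (Function.update m 0 _ 0) (Function.update m 0 _ 1) =
        q1 (Function.update m 0 _ 0) (Function.update m 0 _ 1) +
          q1 (Function.update m 0 _ 0) (Function.update m 0 _ 1)
      rw [(upd2 m (x + y)).1.1, (upd2 m (x + y)).1.2, (upd2 m x).1.1, (upd2 m x).1.2,
        (upd2 m y).1.1, (upd2 m y).1.2]
      simp only [q1, Pi.add_apply]; ring
    · show q1 (Function.update m 1 _ 0) (Function.update m 1 _ 1) =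
        q1 (Function.update m 1 _ 0) (Function.update m 1 _ 1) +
          q1 (Function.update m 1 _ 0) (Function.update m 1 _ 1)
      rw [(upd2 m (x + y)).2.1, (upd2 m (x + y)).2.2, (upd2 m x).2.1, (upd2 m x).2.2,
        (upd2 m y).2.1, (upd2 m y).2.2]
      simp only [q1, Pi.add_apply]; ring
  map_update_smul' := by
    intro _ m i r x
    fin_cases i
    · show q1 (Function.update m 0 _ 0) (Function.update m 0 _ 1) =
        r • q1 (Function.update m 0 _ 0) (Function.update m 0 _ 1)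
      rw [(upd2 m (r • x)).1.1, (upd2 m (r • x)).1.2, (upd2 m x).1.1, (upd2 m x).1.2]
      simp only [q1, Pi.smul_apply, smul_eq_mul]; ring
    · show q1 (Function.update m 1 _ 0) (Function.update m 1 _ 1) =
        r • q1 (Function.update m 1 _ 0) (Function.update m 1 _ 1)
      rw [(upd2 m (r • x)).2.1, (upd2 m (r • x)).2.2, (upd2 m x).2.1, (upd2 m x).2.2]
      simp only [q1, Pi.smul_apply, smul_eq_mul]; ring

theorem T2_apply (X : Fin 2 → E4) : T2 X = q1 (X 0) (X 1) := rfl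

theorem T2_symm (σ : Equiv.Perm (Fin 2)) (X : Fin 2 → E4) : T2 (X ∘ σ) = T2 X := by
  rw [T2_apply, T2_apply]
  simp only [Function.comp_apply]
  have h : (σ 0 = 0 ∧ σ 1 = 1) ∨ (σ 0 = 1 ∧ σ 1 = 0) := by
    revert σ; decide
  rcases h with ⟨h0, h1⟩ | ⟨h0, h1⟩
  · rw [h0, h1]
  · rw [h0, h1]
    simp only [q1]; ring

/-- the standard basis -/
def eb (i : Fin 4) : E4 := Pi.single i 1

theorem eb_on (i j : Fin 4) : gg 0 (eb i) (eb j) = if i = j then 1 else 0 := by
  rw [gg0]
  fin_cases i <;> fin_cases j <;> simp [q0, eb]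

theorem not_condL2 (U : Set E4) (hU : (0 : E4) ∈ U) : ¬CondL 2 U gg GG := by
  intro h
  have h1 := h 0 hU eb eb_on T2 T2_symm
  rw [redG 0 eb eb_on T2, KK0 eb eb_on, PP2] at h1
  have hC := Jm_Cx eb eb_on
  have hs : ∀ x y, T2 (eb ∘ ![x, y]) = q1 (eb x) (eb y) := fun x y => rfl
  simp only [hs] at h1
  have hsym : ∀ a b, q1 (eb a) (eb b) = q1 (eb b) (eb a) := fun a b => by
    simp only [q1]; ring
  have k1 : ∀ x y, ∑ a, ∑ d, kJ (Jm eb) a x a d * q1 (eb d) (eb y) = -(27 * q1 (eb x) (eb y)) :=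
    fun x y => lem1 hC (fun d => q1 (eb d) (eb y)) x
  have k2 : ∀ x y, ∑ a, ∑ d, kJ (Jm eb) a y a d * q1 (eb x) (eb d) = -(27 * q1 (eb x) (eb y)) :=
    fun x y => lem1 hC (fun d => q1 (eb x) (eb d)) y
  have k3 := fun x y => lem2 hC (s := fun a d => q1 (eb a) (eb d)) hsym x y
  have k4 := fun x y => lem2 hC (s := fun a d => q1 (eb d) (eb a)) (fun a b => hsym b a) x y
  simp only [k1, k2, k3, k4] at h1
  have e1 : ∀ x y, q1 (eb x) (eb y) = (![1, 1, -1, -1] : Fin 4 → ℝ) x *
      if x = y then 1 else 0 := by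
    intro x y
    fin_cases x <;> fin_cases y <;> simp [q1, eb]
  have e2 : ∀ x y, Jm eb x y = (![![0, 1, 0, 0], ![-1, 0, 0, 0], ![0, 0, 0, 1],
      ![0, 0, -1, 0]] : Fin 4 → Fin 4 → ℝ) x y := by
    intro x y
    fin_cases x <;> fin_cases y <;> simp [Jm, om, eb]
  simp only [e1, e2] at h1
  simp [Fin.sum_univ_four] at h1
  norm_num at h1

end Pool.Agent.X181.LK
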