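import Pool.Agent.X181.LK.Alg

/-!
# The curvature term as a polynomial in the components
-/

set_option autoImplicit false

namespace Pool.Agent.X181.LK

open Finset

/-- the quadratic form of the curvature term, in components -/
noncomputable def PP {n k : ℕ} (K : Fin n → Fin n → Fin n → Fin n → ℝ)
    (τ : (Fin k → Fin n) → ℝ) : ℝ :=
  ∑ i : Fin k → Fin n, (∑ s, ∑ a, -(∑ j, ∑ d, K a (i s) (Function.update i s a j) d *
    τ (Function.update (Function.update i s a) j d))) * τ i

/-- the curvature tensor `-1 + 10 skewCurv J` -/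
def kJ (J : Fin 4 → Fin 4 → ℝ) (a b c d : Fin 4) : ℝ :=
  -((if b = c then 1 else 0) * (if a = d then 1 else 0) -
      (if a = c then 1 else 0) * (if b = d then 1 else 0)) +
    10 * (2 * J a b * J d c + J a d * J b c - J a c * J b d)

variable {J : Fin 4 → Fin 4 → ℝ}

theorem lem1 (h : Cx J) (s : Fin 4 → ℝ) (x : Fin 4) :
    ∑ a, ∑ d, kJ J a x a d * s d = -(27 * s x) := by
  have h1 : ∀ d, ∑ a, kJ J a x a d = if x = d then -27 else 0 := by
    intro d
    have e1 : ∑ a, J a x * J d a = if x = d then -1 else 0 := by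
      rw [sum_congr rfl fun a _ => mul_comm (J a x) (J d a), h.sq d x]
      by_cases hx : x = d
      · rw [if_pos hx, if_pos hx.symm]
      · rw [if_neg hx, if_neg (Ne.symm hx)]
    have e2 : ∑ a, J a d * J x a = if x = d then -1 else 0 := by
      rw [sum_congr rfl fun a _ => mul_comm (J a d) (J x a), h.sq x d]
    have e3 : ∀ a, J a a = 0 := fun a => by
      have := h.skew a a
      linarith
    simp only [kJ, e3, zero_mul, sub_zero, if_true, one_mul]
    rw [sum_add_distrib, sum_neg_distrib, sum_sub_distrib, ← mul_sum, sum_add_distrib]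
    have e4 : ∑ a, 2 * J a x * J d a = 2 * ∑ a, J a x * J d a := by
      rw [mul_sum]
      exact sum_congr rfl fun a _ => by ring
    rw [e4, e1, e2]
    have e5 : ∑ a : Fin 4, (if x = a then (1 : ℝ) else 0) * (if a = d then 1 else 0) =
        if x = d then 1 else 0 := by
      simp
    rw [e5, sum_const, card_univ, Fintype.card_fin]
    split_ifs <;> simp <;> norm_num
  rw [sum_comm]
  simp only [← sum_mul, h1]
  simp

theorem lem2 (h : Cx J) {s : Fin 4 → Fin 4 → ℝ} (hs : ∀ a b, s a b = s b a) (x y : Fin 4) :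
    ∑ a, ∑ d, kJ J a x y d * s a d =
      -((if x = y then 1 else 0) * ∑ a, s a a) + s x y +
        30 * ∑ i, J x i * ∑ j, J y j * s i j := by
  have e0 : ∑ a, ∑ d, J a d * s a d = 0 := by
    have h1 : ∑ a, ∑ d, J a d * s a d = -∑ a, ∑ d, J a d * s a d := by
      conv_lhs => rw [sum_comm]
      rw [← sum_neg_distrib]
      refine sum_congr rfl fun a _ => ?_
      rw [← sum_neg_distrib]
      refine sum_congr rfl fun d _ => ?_
      rw [h.skew d a, hs d a]
      ring
    linarith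
  have e1 : ∑ a, ∑ d, (2 * J a x * J d y) * s a d = 2 * ∑ i, J x i * ∑ j, J y j * s i j := by
    simp only [mul_sum]
    refine sum_congr rfl fun a _ => sum_congr rfl fun d _ => ?_
    rw [h.skew a x, h.skew d y]
    ring
  have e2 : ∑ a, ∑ d, (J a y * J x d) * s a d = -∑ i, J x i * ∑ j, J y j * s i j := by
    rw [sum_comm]
    simp only [mul_sum, ← sum_neg_distrib]
    refine sum_congr rfl fun a _ => sum_congr rfl fun d _ => ?_
    rw [h.skew d y, hs d a]
    ring
  have e3 : ∑ a, ∑ d, ((if x = y then (1 : ℝ) else 0) * (if a = d then 1 else 0)) * s a d =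
      (if x = y then 1 else 0) * ∑ a, s a a := by
    rw [mul_sum]
    refine sum_congr rfl fun a _ => ?_
    simp
  have e4 : ∑ a, ∑ d, ((if a = y then (1 : ℝ) else 0) * (if x = d then 1 else 0)) * s a d =
      s x y := by
    rw [hs]
    simp
  have e5 : ∑ a, ∑ d, (J a d * J x y) * s a d = 0 := by
    have : ∑ a, ∑ d, (J a d * J x y) * s a d = J x y * ∑ a, ∑ d, J a d * s a d := by
      simp only [mul_sum]
      exact sum_congr rfl fun a _ => sum_congr rfl fun d _ => by ring
    rw [this, e0, mul_zero]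
  have hsplit : ∑ a, ∑ d, kJ J a x y d * s a d =
      -(∑ a, ∑ d, ((if x = y then (1 : ℝ) else 0) * (if a = d then 1 else 0)) * s a d) +
      ∑ a, ∑ d, ((if a = y then (1 : ℝ) else 0) * (if x = d then 1 else 0)) * s a d +
      10 * (∑ a, ∑ d, (2 * J a x * J d y) * s a d + ∑ a, ∑ d, (J a d * J x y) * s a d -
        ∑ a, ∑ d, (J a y * J x d) * s a d) := by
    simp only [kJ, mul_sum, ← sum_add_distrib, ← sum_sub_distrib, ← sum_neg_distrib]
    exact sum_congr rfl fun a _ => sum_congr rfl fun d _ => by ring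
  rw [hsplit, e1, e2, e3, e4, e5]
  ring

theorem sum3 (f : (Fin 3 → Fin 4) → ℝ) : ∑ i, f i = ∑ a, ∑ b, ∑ c, f ![a, b, c] := by
  rw [← (Fin.consEquiv fun _ : Fin 3 => Fin 4).sum_comp, Fintype.sum_prod_type]
  refine sum_congr rfl fun a _ => ?_
  rw [← (Fin.consEquiv fun _ : Fin 2 => Fin 4).sum_comp, Fintype.sum_prod_type]
  refine sum_congr rfl fun b _ => ?_
  rw [← (Fin.consEquiv fun _ : Fin 1 => Fin 4).sum_comp, Fintype.sum_prod_type]
  refine sum_congr rfl fun c _ => ?_
  rw [Fintype.sum_unique]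
  rfl

theorem sum2 (f : (Fin 2 → Fin 4) → ℝ) : ∑ i, f i = ∑ a, ∑ b, f ![a, b] := by
  rw [← (Fin.consEquiv fun _ : Fin 2 => Fin 4).sum_comp, Fintype.sum_prod_type]
  refine sum_congr rfl fun b _ => ?_
  rw [← (Fin.consEquiv fun _ : Fin 1 => Fin 4).sum_comp, Fintype.sum_prod_type]
  refine sum_congr rfl fun c _ => ?_
  rw [Fintype.sum_unique]
  rfl

theorem up30 (x y z a : Fin 4) : Function.update ![x, y, z] 0 a = ![a, y, z] := by
  funext i; fin_cases i <;> rfl
theorem up31 (x y z a : Fin 4) : Function.update ![x, y, z] 1 a = ![x, a, z] := by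
  funext i; fin_cases i <;> rfl
theorem up32 (x y z a : Fin 4) : Function.update ![x, y, z] 2 a = ![x, y, a] := by
  funext i; fin_cases i <;> rfl
theorem up20 (x y a : Fin 4) : Function.update ![x, y] 0 a = ![a, y] := by
  funext i; fin_cases i <;> rfl
theorem up21 (x y a : Fin 4) : Function.update ![x, y] 1 a = ![x, a] := by
  funext i; fin_cases i <;> rfl

theorem PP3 (K : Fin 4 → Fin 4 → Fin 4 → Fin 4 → ℝ) (τ : (Fin 3 → Fin 4) → ℝ) :
    PP K τ = -∑ x, ∑ y, ∑ z, ((∑ a, ∑ d, K a x a d * τ ![d, y, z]) +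
      (∑ a, ∑ d, K a x y d * τ ![a, d, z]) + (∑ a, ∑ d, K a x z d * τ ![a, y, d]) +
      (∑ a, ∑ d, K a y x d * τ ![d, a, z]) + (∑ a, ∑ d, K a y a d * τ ![x, d, z]) +
      (∑ a, ∑ d, K a y z d * τ ![x, a, d]) +
      (∑ a, ∑ d, K a z x d * τ ![d, y, a]) + (∑ a, ∑ d, K a z y d * τ ![x, d, a]) +
      (∑ a, ∑ d, K a z a d * τ ![x, y, d])) * τ ![x, y, z] := by
  rw [PP, sum3, ← sum_neg_distrib]
  refine sum_congr rfl fun x _ => ?_
  rw [← sum_neg_distrib]
  refine sum_congr rfl fun y _ => ?_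
  rw [← sum_neg_distrib]
  refine sum_congr rfl fun z _ => ?_
  rw [← neg_mul]
  congr 1
  simp only [Fin.sum_univ_three, up30, up31, up32, Matrix.cons_val_zero, Matrix.cons_val_one,
    Matrix.cons_val_two, Matrix.head_cons, Matrix.tail_cons, sum_add_distrib, sum_neg_distrib,
    neg_add_rev, Matrix.cons_val]
  ring

theorem PP2 (K : Fin 4 → Fin 4 → Fin 4 → Fin 4 → ℝ) (τ : (Fin 2 → Fin 4) → ℝ) :
    PP K τ = -∑ x, ∑ y, ((∑ a, ∑ d, K a x a d * τ ![d, y]) +
      (∑ a, ∑ d, K a x y d * τ ![a, d]) +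
      (∑ a, ∑ d, K a y x d * τ ![d, a]) + (∑ a, ∑ d, K a y a d * τ ![x, d])) * τ ![x, y] := by
  rw [PP, sum2, ← sum_neg_distrib]
  refine sum_congr rfl fun x _ => ?_
  rw [← sum_neg_distrib]
  refine sum_congr rfl fun y _ => ?_
  rw [← neg_mul]
  congr 1
  simp only [Fin.sum_univ_two, up20, up21, Matrix.cons_val_zero, Matrix.cons_val_one,
    Matrix.head_cons, sum_add_distrib, sum_neg_distrib, neg_add_rev, Matrix.cons_val]
  ring

/-- **Positivity on symmetric tensors of degree three**. -/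
theorem PP3_pos (h : Cx J) {τ : (Fin 3 → Fin 4) → ℝ}
    (hτ : Sy fun a b c => τ ![a, b, c]) :
    15 * ip (fun a b c => τ ![a, b, c]) (fun a b c => τ ![a, b, c]) ≤ PP (kJ J) τ := by
  obtain ⟨t, ht⟩ : ∃ t : C3, t = fun a b c => τ ![a, b, c] := ⟨_, rfl⟩
  have hts : Sy t := by rw [ht]; exact hτ
  have e : ∀ a b c, τ ![a, b, c] = t a b c := fun a b c => by rw [ht]
  rw [PP3]
  simp only [e]
  have g1 : ∀ y z x, ∑ a, ∑ d, kJ J a x a d * t d y z = -(27 * t x y z) := fun y z x =>
    lem1 h (fun d => t d y z) x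
  have g2 : ∀ x z y, ∑ a, ∑ d, kJ J a y a d * t x d z = -(27 * t x y z) := fun x z y =>
    lem1 h (fun d => t x d z) y
  have g3 : ∀ x y z, ∑ a, ∑ d, kJ J a z a d * t x y d = -(27 * t x y z) := fun x y z =>
    lem1 h (fun d => t x y d) z
  have k12 : ∀ x y z, ∑ a, ∑ d, kJ J a x y d * t a d z = -((if x = y then 1 else 0) *
      ∑ a, t a a z) + t x y z + 30 * J1 J (J2 J t) x y z := fun x y z =>
    lem2 h (s := fun a d => t a d z) (fun a b => hts.s12 a b z) x y
  have k21 : ∀ x y z, ∑ a, ∑ d, kJ J a y x d * t d a z = -((if x = y then 1 else 0) *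
      ∑ a, t a a z) + t x y z + 30 * J1 J (J2 J t) x y z := fun x y z => by
    have h1 := lem2 h (s := fun a d => t d a z) (fun a b => (hts.s12 a b z).symm) y x
    have h2 : ∑ i, J y i * ∑ j, J x j * t j i z = J1 J (J2 J t) x y z := by
      simp only [J1, J2, mul_sum]
      rw [sum_comm]
      exact sum_congr rfl fun i _ => sum_congr rfl fun j _ => by ring
    rw [h1, h2]
    by_cases hxy : x = y
    · subst hxy; rfl
    · rw [if_neg hxy, if_neg (Ne.symm hxy)]
  have k23 : ∀ x y z, ∑ a, ∑ d, kJ J a y z d * t x a d = -((if y = z then 1 else 0) *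
      ∑ a, t x a a) + t x y z + 30 * J2 J (J3 J t) x y z := fun x y z =>
    lem2 h (s := fun a d => t x a d) (fun a b => hts.s23 x a b) y z
  have k32 : ∀ x y z, ∑ a, ∑ d, kJ J a z y d * t x d a = -((if y = z then 1 else 0) *
      ∑ a, t x a a) + t x y z + 30 * J2 J (J3 J t) x y z := fun x y z => by
    have h1 := lem2 h (s := fun a d => t x d a) (fun a b => (hts.s23 x a b).symm) z y
    have h2 : ∑ i, J z i * ∑ j, J y j * t x j i = J2 J (J3 J t) x y z := by
      simp only [J2, J3, mul_sum]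
      rw [sum_comm]
      exact sum_congr rfl fun i _ => sum_congr rfl fun j _ => by ring
    rw [h1, h2]
    by_cases hxy : y = z
    · subst hxy; rfl
    · rw [if_neg hxy, if_neg (Ne.symm hxy)]
  have s13 : ∀ a b c, t a b c = t c b a := fun a b c => by
    rw [hts.s12, hts.s23, hts.s12]
  have k13 : ∀ x y z, ∑ a, ∑ d, kJ J a x z d * t a y d = -((if x = z then 1 else 0) *
      ∑ a, t a y a) + t x y z + 30 * J1 J (J3 J t) x y z := fun x y z =>
    lem2 h (s := fun a d => t a y d) (fun a b => s13 a y b) x z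
  have k31 : ∀ x y z, ∑ a, ∑ d, kJ J a z x d * t d y a = -((if x = z then 1 else 0) *
      ∑ a, t a y a) + t x y z + 30 * J1 J (J3 J t) x y z := fun x y z => by
    have h1 := lem2 h (s := fun a d => t d y a) (fun a b => (s13 a y b).symm) z x
    have h2 : ∑ i, J z i * ∑ j, J x j * t j y i = J1 J (J3 J t) x y z := by
      simp only [J1, J3, mul_sum]
      rw [sum_comm]
      exact sum_congr rfl fun i _ => sum_congr rfl fun j _ => by ring
    rw [h1, h2]
    by_cases hxy : x = z
    · subst hxy; rfl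
    · rw [if_neg hxy, if_neg (Ne.symm hxy)]
  simp only [g1, g2, g3, k12, k21, k23, k32, k13, k31]
  obtain ⟨T1, hT1⟩ : ∃ T1 : Fin 4 → ℝ, ∀ z, ∑ a, t a a z = T1 z := ⟨_, fun _ => rfl⟩
  obtain ⟨T2, hT2⟩ : ∃ T2 : Fin 4 → ℝ, ∀ y, ∑ a, t a y a = T2 y := ⟨_, fun _ => rfl⟩
  obtain ⟨T3, hT3⟩ : ∃ T3 : Fin 4 → ℝ, ∀ x, ∑ a, t x a a = T3 x := ⟨_, fun _ => rfl⟩
  simp only [hT1, hT2, hT3]
  -- collect
  have hX := X_le h hts
  have hX2 := X_eq2 (J := J) hts
  have hX3 := X_eq3 (J := J) hts
  have hsum : (-∑ x, ∑ y, ∑ z,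
      (-(27 * t x y z) + (-((if x = y then (1 : ℝ) else 0) * T1 z) + t x y z +
          30 * J1 J (J2 J t) x y z) +
        (-((if x = z then (1 : ℝ) else 0) * T2 y) + t x y z +
          30 * J1 J (J3 J t) x y z) +
        (-((if x = y then (1 : ℝ) else 0) * T1 z) + t x y z +
          30 * J1 J (J2 J t) x y z) +
        -(27 * t x y z) +
        (-((if y = z then (1 : ℝ) else 0) * T3 x) + t x y z +
          30 * J2 J (J3 J t) x y z) +
        (-((if x = z then (1 : ℝ) else 0) * T2 y) + t x y z +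
          30 * J1 J (J3 J t) x y z) +
        (-((if y = z then (1 : ℝ) else 0) * T3 x) + t x y z +
          30 * J2 J (J3 J t) x y z) +
        -(27 * t x y z)) * t x y z) =
      75 * ip t t - 60 * ip t (J1 J (J2 J t)) - 60 * ip t (J2 J (J3 J t)) -
        60 * ip t (J1 J (J3 J t)) +
      2 * (∑ x, ∑ y, ∑ z, (if x = y then (1 : ℝ) else 0) * T1 z * t x y z) +
      2 * (∑ x, ∑ y, ∑ z, (if x = z then (1 : ℝ) else 0) * T2 y * t x y z) +
      2 * (∑ x, ∑ y, ∑ z, (if y = z then (1 : ℝ) else 0) * T3 x * t x y z) := by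
    simp only [ip, mul_sum, ← sum_add_distrib, ← sum_sub_distrib, ← sum_neg_distrib]
    refine sum_congr rfl fun x _ => sum_congr rfl fun y _ => sum_congr rfl fun z _ => ?_
    ring
  rw [hsum]
  have t1 : 0 ≤ ∑ x, ∑ y, ∑ z, (if x = y then (1 : ℝ) else 0) * T1 z * t x y z := by
    have : ∑ x, ∑ y, ∑ z, (if x = y then (1 : ℝ) else 0) * T1 z * t x y z =
        ∑ z, T1 z ^ 2 := by
      have h1 : ∀ x, ∑ y, ∑ z, (if x = y then (1 : ℝ) else 0) * T1 z * t x y z =
          ∑ z, T1 z * t x x z := by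
        intro x
        rw [sum_eq_single x]
        · simp
        · intro y _ hy
          simp [Ne.symm hy]
        · simp
      simp only [h1]
      rw [sum_comm]
      refine sum_congr rfl fun z _ => ?_
      rw [← mul_sum, sq, hT1]
    rw [this]
    exact sum_nonneg fun z _ => sq_nonneg _
  have t2 : 0 ≤ ∑ x, ∑ y, ∑ z, (if x = z then (1 : ℝ) else 0) * T2 y * t x y z := by
    have : ∑ x, ∑ y, ∑ z, (if x = z then (1 : ℝ) else 0) * T2 y * t x y z =
        ∑ y, T2 y ^ 2 := by
      rw [sum_comm]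
      refine sum_congr rfl fun y _ => ?_
      have h1 : T2 y ^ 2 = ∑ x, T2 y * t x y x := by rw [← mul_sum, hT2, sq]
      rw [h1]
      refine sum_congr rfl fun x _ => ?_
      simp
    rw [this]
    exact sum_nonneg fun z _ => sq_nonneg _
  have t3 : 0 ≤ ∑ x, ∑ y, ∑ z, (if y = z then (1 : ℝ) else 0) * T3 x * t x y z := by
    have : ∑ x, ∑ y, ∑ z, (if y = z then (1 : ℝ) else 0) * T3 x * t x y z =
        ∑ x, T3 x ^ 2 := by
      refine sum_congr rfl fun x _ => ?_
      have h1 : T3 x ^ 2 = ∑ y, T3 x * t x y y := by rw [← mul_sum, hT3, sq]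
      rw [h1]
      refine sum_congr rfl fun y _ => ?_
      simp
    rw [this]
    exact sum_nonneg fun z _ => sq_nonneg _
  rw [hX2, hX3]
  linarith

end Pool.Agent.X181.LK
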