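import Pool.Agent.X181.LK.Defs
import Pool.Agent.X181.LK.Poly
import Pool.Agent.X181.LC

/-!
# The metric
-/

set_option autoImplicit false

namespace Pool.Agent.X181.LK

open scoped ContDiff
open Finset

abbrev E4 := Fin 4 → ℝ
abbrev F8 := Fin 8 → ℝ

def q0 (u v : E4) : ℝ := u 0 * v 0 + u 1 * v 1 + u 2 * v 2 + u 3 * v 3
def q1 (u v : E4) : ℝ := u 0 * v 0 + u 1 * v 1 - u 2 * v 2 - u 3 * v 3
def q2 (u v : E4) : ℝ := u 0 * v 2 + u 2 * v 0 + u 1 * v 3 + u 3 * v 1
def q3 (u v : E4) : ℝ := u 1 * v 2 + u 2 * v 1 - u 0 * v 3 - u 3 * v 0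
def om (u v : E4) : ℝ := u 0 * v 1 - u 1 * v 0 + u 2 * v 3 - u 3 * v 2

noncomputable def Lm : E4 →L[ℝ] F8 := LinearMap.toContinuousLinearMap
  { toFun := fun u => ![u 0, u 1, u 2, u 3, 0, 0, 0, 0]
    map_add' := fun u v => by funext i; fin_cases i <;> simp
    map_smul' := fun r u => by funext i; fin_cases i <;> simp }

noncomputable def be : E4 →L[ℝ] E4 →L[ℝ] F8 := LinearMap.toContinuousBilinearMap
  (LinearMap.mk₂ ℝ (fun u v : E4 => (![0, 0, 0, 0, q0 u v, q1 u v, q2 u v, q3 u v] : F8))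
    (fun u u' v => by funext i; fin_cases i <;> simp [q0, q1, q2, q3] <;> ring)
    (fun r u v => by funext i; fin_cases i <;> simp [q0, q1, q2, q3] <;> ring)
    (fun u v v' => by funext i; fin_cases i <;> simp [q0, q1, q2, q3] <;> ring)
    (fun r u v => by funext i; fin_cases i <;> simp [q0, q1, q2, q3] <;> ring))

theorem Lm_apply (u : E4) : Lm u = ![u 0, u 1, u 2, u 3, 0, 0, 0, 0] := rfl
theorem be_apply (u v : E4) : be u v = ![0, 0, 0, 0, q0 u v, q1 u v, q2 u v, q3 u v] := rfl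

noncomputable def Bf : F8 →L[ℝ] F8 →L[ℝ] ℝ := LinearMap.toContinuousBilinearMap
  (LinearMap.mk₂ ℝ (fun X Y : F8 => X 0 * Y 0 + X 1 * Y 1 + X 2 * Y 2 + X 3 * Y 3 +
      19 * (X 4 * Y 4) + 10 * (X 5 * Y 5 + X 6 * Y 6 + X 7 * Y 7))
    (fun u u' v => by simp only [Pi.add_apply]; ring)
    (fun r u v => by simp only [Pi.smul_apply, smul_eq_mul]; ring)
    (fun u v v' => by simp only [Pi.add_apply]; ring)
    (fun r u v => by simp only [Pi.smul_apply, smul_eq_mul]; ring))

theorem Bf_apply (X Y : F8) : Bf X Y = X 0 * Y 0 + X 1 * Y 1 + X 2 * Y 2 + X 3 * Y 3 +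
      19 * (X 4 * Y 4) + 10 * (X 5 * Y 5 + X 6 * Y 6 + X 7 * Y 7) := rfl

theorem Bf_symm (X Y : F8) : Bf X Y = Bf Y X := by
  rw [Bf_apply, Bf_apply]; ring

/-- the immersion -/
noncomputable def ff (x : E4) : F8 := Lm x + (1 / 2 : ℝ) • be x x

theorem be_symm (u v : E4) : be u v = be v u := by
  rw [be_apply, be_apply]
  funext i; fin_cases i <;> simp [q0, q1, q2, q3] <;> ring

theorem ff_deriv (x : E4) : HasFDerivAt ff (Lm + be x) x := by
  have h1 := be.hasFDerivAt_of_bilinear (hasFDerivAt_id x) (hasFDerivAt_id x)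
  have h2 := (Lm.hasFDerivAt (x := x)).add (h1.const_smul (1 / 2 : ℝ))
  refine h2.congr_fderiv ?_
  ext1 u
  have e : (be.precompR E4 (id x) (ContinuousLinearMap.id ℝ E4) +
        be.precompL E4 (ContinuousLinearMap.id ℝ E4) (id x)) u = be x u + be u x := rfl
  simp only [add_apply, smul_apply]
  rw [← add_apply, e, be_symm u x, ← two_smul ℝ (be x u), smul_smul]
  norm_num

theorem df (x : E4) : fderiv ℝ ff x = Lm + be x := (ff_deriv x).fderiv

theorem ddf (x u v : E4) : fderiv ℝ (fderiv ℝ ff) x u v = be u v := by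
  have h1 : fderiv ℝ ff = fun x => Lm + be x := funext df
  rw [h1]
  have h2 : HasFDerivAt (fun x : E4 => Lm + be x) be x := (be.hasFDerivAt (x := x)).const_add Lm
  rw [h2.fderiv]

theorem ff_smooth : ContDiff ℝ ∞ ff := by
  have h : ContDiff ℝ ∞ (fun x : E4 => Lm x + (1 / 2 : ℝ) • be x x) :=
    Lm.contDiff.add ((be.contDiff.clm_apply contDiff_id).const_smul (1 / 2 : ℝ))
  exact h

/-- the metric -/
noncomputable def gg (x u v : E4) : ℝ := Bf (fderiv ℝ ff x u) (fderiv ℝ ff x v)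

theorem gg_eq (x u v : E4) : gg x u v = q0 u v + 19 * (q0 x u * q0 x v) +
    10 * (q1 x u * q1 x v + q2 x u * q2 x v + q3 x u * q3 x v) := by
  rw [gg, df, Bf_apply]
  simp only [add_apply, Lm_apply, be_apply, Pi.add_apply]
  simp [q0]

theorem gg_symm (x u v : E4) : gg x u v = gg x v u := Bf_symm _ _

theorem gg_add (x u u' v : E4) : gg x (u + u') v = gg x u v + gg x u' v := by
  simp only [gg, map_add, add_apply]

theorem gg_smul (x : E4) (r : ℝ) (u v : E4) : gg x (r • u) v = r * gg x u v := by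
  simp only [gg, map_smul, smul_apply, smul_eq_mul]

theorem gg_ge (x u : E4) : u 0 ^ 2 + u 1 ^ 2 + u 2 ^ 2 + u 3 ^ 2 ≤ gg x u u := by
  rw [gg_eq]
  have h1 := mul_self_nonneg (q0 x u)
  have h2 := mul_self_nonneg (q1 x u)
  have h3 := mul_self_nonneg (q2 x u)
  have h4 := mul_self_nonneg (q3 x u)
  simp only [q0] at h1 ⊢
  nlinarith

theorem comp_le (x u : E4) (i : Fin 4) : u i ^ 2 ≤ gg x u u := by
  have h := gg_ge x u
  have h0 := sq_nonneg (u 0)
  have h1 := sq_nonneg (u 1)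
  have h2 := sq_nonneg (u 2)
  have h3 := sq_nonneg (u 3)
  fin_cases i <;> simp only [Fin.zero_eta, Fin.mk_one, Fin.reduceFinMk] <;> linarith

theorem gg_pos (x u : E4) (hu : u ≠ 0) : 0 < gg x u u := by
  obtain ⟨i, hi⟩ := Function.ne_iff.1 hu
  have h1 := comp_le x u i
  have h2 : 0 < u i ^ 2 := by
    have : u i ≠ 0 := hi
    positivity
  linarith

theorem nd (x : E4) (u : E4) (h : ∀ v, Bf (fderiv ℝ ff x u) (fderiv ℝ ff x v) = 0) : u = 0 := by
  by_contra hu
  have := gg_pos x u hu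
  rw [gg, h u] at this
  exact lt_irrefl _ this

/-- the Levi-Civita connection -/
noncomputable def GG : E4 → E4 →L[ℝ] E4 →L[ℝ] E4 := lcConn Bf ff

theorem isLC : IsLeviCivita Set.univ gg GG :=
  lcConn_isLeviCivita isOpen_univ ff_smooth.contDiffOn Bf Bf_symm fun x _ u h => nd x u h

theorem GG0 (u v : E4) : GG 0 u v = 0 := by
  refine nd 0 _ fun w => ?_
  have h := lcConn_char (U := Set.univ) (f := ff) Bf (fun x _ u h => nd x u h)
    (Set.mem_univ (0 : E4)) u v w
  rw [GG, h, ddf, df, be_apply]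
  simp only [map_zero, add_zero, Lm_apply, Bf_apply]
  simp

/-- the curvature tensor at the origin -/
theorem curv0 (t u v w : E4) : gg 0 (Riem GG 0 t u v) w =
    -(q0 u v * q0 t w - q0 t v * q0 u w) +
      10 * (2 * om t u * om w v + om t w * om u v - om t v * om u w) := by
  have h := gauss_eq isOpen_univ ff_smooth.contDiffOn Bf Bf_symm isLC (Set.mem_univ (0 : E4))
    t u v w
  rw [gg, h]
  simp only [GG0, map_zero, sub_zero, ddf, be_apply, Bf_apply]
  simp [q0, q1, q2, q3, om]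
  ring

end Pool.Agent.X181.LK
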