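import Pool.Agent.X181.LK.Red
import Pool.Agent.X181.LK.Geo

/-!
# `(L_3)` near the origin, failure of `(L_2)` at the origin
-/

set_option autoImplicit false

namespace Pool.Agent.X181.LK

open Finset
open scoped ContDiff

/-- components of the curvature tensor -/
noncomputable def KK (x : E4) (e : Fin 4 → E4) (a b c d : Fin 4) : ℝ :=
  gg x (Riem GG x (e a) (e b) (e c)) (e d)

theorem redG {k : ℕ} (x : E4) (e : Fin 4 → E4)
    (he : ∀ i j, gg x (e i) (e j) = if i = j then 1 else 0)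
    (T : MultilinearMap ℝ (fun _ : Fin k => E4) ℝ) :
    ∑ i : Fin k → Fin 4, RicL GG x e T (e ∘ i) * T (e ∘ i) = PP (KK x e) fun i => T (e ∘ i) :=
  red GG x e (KK x e) (fun _ _ _ => expand (gg_add x) (gg_smul x) he _) T

theorem gg0 (u v : E4) : gg 0 u v = q0 u v := by
  rw [gg_eq]; simp [q0, q1, q2, q3]

/-- the matrix of the complex structure -/
def Jm (e : Fin 4 → E4) (a b : Fin 4) : ℝ := om (e a) (e b)

def JJ (u : E4) : E4 := ![-u 1, u 0, -u 3, u 2]

theorem om_eq (u v : E4) : om u v = q0 (JJ u) v := by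
  simp [om, q0, JJ]; ring

theorem JJ_q0 (u v : E4) : q0 (JJ u) (JJ v) = q0 u v := by
  simp [q0, JJ]; ring

theorem Jm_Cx (e : Fin 4 → E4) (he : ∀ i j, gg 0 (e i) (e j) = if i = j then 1 else 0) :
    Cx (Jm e) := by
  refine ⟨fun a b => ?_, fun a c => ?_⟩
  · simp only [Jm, om]; ring
  · have hq : ∀ u v, gg 0 u v = q0 u v := gg0
    have h1 : q0 (JJ (e a)) (JJ (e c)) = if a = c then 1 else 0 := by
      rw [JJ_q0, ← gg0, he]
    rw [← h1]
    have h2 := expand (gg_add 0) (gg_smul 0) he (JJ (e a))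
    have h3 := b_sum (gg_add 0) (gg_smul 0) univ (fun d => gg 0 (JJ (e a)) (e d)) e (JJ (e c))
    rw [← h2, hq] at h3
    rw [h3]
    refine sum_congr rfl fun b _ => ?_
    rw [Jm, Jm, om_eq, om_eq, gg0, gg_symm, gg0]

theorem KK0 (e : Fin 4 → E4) (he : ∀ i j, gg 0 (e i) (e j) = if i = j then 1 else 0) :
    KK 0 e = kJ (Jm e) := by
  have hq : ∀ i j, q0 (e i) (e j) = if i = j then 1 else 0 := fun i j => by rw [← gg0, he]
  funext a b c d
  rw [KK, curv0, hq, hq, hq, hq]
  rfl

/-! ### continuity -/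

theorem GG_smooth : ContDiff ℝ ∞ GG := contDiffOn_univ.1 isLC.smooth

theorem df_cont : Continuous (fderiv ℝ ff) := ff_smooth.continuous_fderiv (by simp)

theorem Riem_cont_gen {E P : Type*} [NormedAddCommGroup E] [NormedSpace ℝ E]
    [TopologicalSpace P] {Γ : E → E →L[ℝ] E →L[ℝ] E} (hΓ : ContDiff ℝ ∞ Γ) {x u v w : P → E}
    (hx : Continuous x) (hu : Continuous u) (hv : Continuous v) (hw : Continuous w) :
    Continuous fun p => Riem Γ (x p) (u p) (v p) (w p) := by
  have h0 : Continuous fun p => Γ (x p) := hΓ.continuous.comp hx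
  have h1 : Continuous fun p => fderiv ℝ Γ (x p) := (hΓ.continuous_fderiv (by simp)).comp hx
  unfold Riem
  exact (((((h1.clm_apply hu).clm_apply hv).clm_apply hw).sub
    (((h1.clm_apply hv).clm_apply hu).clm_apply hw)).add
    ((h0.clm_apply hu).clm_apply ((h0.clm_apply hv).clm_apply hw))).sub
    ((h0.clm_apply hv).clm_apply ((h0.clm_apply hu).clm_apply hw))

abbrev Sp := E4 × (Fin 4 → E4) × ((Fin 3 → Fin 4) → ℝ)

theorem Riem_cont (a b c : Fin 4) :
    Continuous fun p : Sp => Riem GG p.1 (p.2.1 a) (p.2.1 b) (p.2.1 c) :=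
  Riem_cont_gen GG_smooth (by fun_prop) (by fun_prop) (by fun_prop) (by fun_prop)

theorem gg_cont {u v : Sp → E4} (hu : Continuous u) (hv : Continuous v) :
    Continuous fun p : Sp => gg p.1 (u p) (v p) := by
  have h1 := df_cont
  unfold gg
  fun_prop

theorem KK_cont (a b c d : Fin 4) : Continuous fun p : Sp => KK p.1 p.2.1 a b c d := by
  unfold KK
  exact gg_cont (Riem_cont a b c) (by fun_prop)

theorem PP_cont : Continuous fun p : Sp => PP (KK p.1 p.2.1) p.2.2 := by
  unfold PP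
  refine continuous_finsetSum _ fun i _ => Continuous.mul ?_ (by fun_prop)
  refine continuous_finsetSum _ fun s _ => continuous_finsetSum _ fun a _ => ?_
  refine (continuous_finsetSum _ fun j _ => continuous_finsetSum _ fun d _ => ?_).neg
  exact (KK_cont _ _ _ _).mul (by fun_prop)

/-- the compact set of bad configurations -/
def CC : Set Sp := {p | p ∈ Metric.closedBall (0 : Sp) 1 ∧
  (∀ a b, gg p.1 (p.2.1 a) (p.2.1 b) = if a = b then 1 else 0) ∧
  Sy (fun a b c => p.2.2 ![a, b, c]) ∧ ∑ i, p.2.2 i ^ 2 = 1 ∧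
  PP (KK p.1 p.2.1) p.2.2 ≤ 0}

theorem CC_compact : IsCompact CC := by
  have hsy : IsClosed {p : Sp | Sy (fun a b c => p.2.2 ![a, b, c])} := by
    have : {p : Sp | Sy (fun a b c => p.2.2 ![a, b, c])} =
        {p : Sp | ∀ a b c, p.2.2 ![a, b, c] = p.2.2 ![b, a, c]} ∩
        {p : Sp | ∀ a b c, p.2.2 ![a, b, c] = p.2.2 ![a, c, b]} := by
      ext p
      exact ⟨fun h => ⟨h.s12, h.s23⟩, fun h => ⟨h.1, h.2⟩⟩
    rw [this]
    refine IsClosed.inter ?_ ?_
    · simp only [Set.ofPred_forall]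
      exact isClosed_iInter fun a => isClosed_iInter fun b => isClosed_iInter fun c =>
        isClosed_eq (by fun_prop) (by fun_prop)
    · simp only [Set.ofPred_forall]
      exact isClosed_iInter fun a => isClosed_iInter fun b => isClosed_iInter fun c =>
        isClosed_eq (by fun_prop) (by fun_prop)
  have hcl : IsClosed CC := by
    refine Metric.isClosed_closedBall.inter (IsClosed.inter ?_ (hsy.inter (IsClosed.inter ?_ ?_)))
    · have : IsClosed {p : Sp | ∀ a b, gg p.1 (p.2.1 a) (p.2.1 b) = if a = b then 1 else 0} := by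
        simp only [Set.ofPred_forall]
        exact isClosed_iInter fun a => isClosed_iInter fun b =>
          isClosed_eq (gg_cont (by fun_prop) (by fun_prop)) continuous_const
      exact this
    · exact isClosed_eq (by fun_prop) continuous_const
    · exact isClosed_le PP_cont continuous_const
  exact (isCompact_closedBall (0 : Sp) 1).of_isClosed_subset hcl fun p hp => hp.1

theorem zero_notMem : (0 : E4) ∉ Prod.fst '' CC := by
  rintro ⟨⟨x, e, τ⟩, ⟨-, he, hs, h1, hP⟩, hx⟩
  have hx : x = 0 := hx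
  subst hx
  have h2 := PP3_pos (Jm_Cx e he) (τ := τ) hs
  have h3 : PP (KK 0 e) τ ≤ 0 := hP
  rw [KK0 e he] at h3
  have h4 : ip (fun a b c => τ ![a, b, c]) (fun a b c => τ ![a, b, c]) = 1 := by
    have h5 : ∑ i, τ i ^ 2 = 1 := h1
    rw [sum3 fun i => τ i ^ 2] at h5
    rw [← h5]
    unfold ip
    exact sum_congr rfl fun a _ => sum_congr rfl fun b _ => sum_congr rfl fun c _ => (sq _).symm
  linarith

/-- the domain -/
def UU : Set E4 := Metric.ball 0 1 ∩ (Prod.fst '' CC)ᶜ

theorem UU_open : IsOpen UU :=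
  Metric.isOpen_ball.inter (CC_compact.image continuous_fst).isClosed.isOpen_compl

theorem zero_mem : (0 : E4) ∈ UU := ⟨Metric.mem_ball_self one_pos, zero_notMem⟩

theorem PP_smul {n k : ℕ} (K : Fin n → Fin n → Fin n → Fin n → ℝ) (r : ℝ)
    (τ : (Fin k → Fin n) → ℝ) : PP K (fun i => r * τ i) = r ^ 2 * PP K τ := by
  unfold PP
  rw [mul_sum]
  refine sum_congr rfl fun i _ => ?_
  have h1 : ∀ (j : (Fin k → Fin n) → ℝ), ∑ s, ∑ a, -(∑ j, ∑ d, K a (i s) (Function.update i s a j) d *
    (r * τ (Function.update (Function.update i s a) j d))) =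
    r * ∑ s, ∑ a, -(∑ j, ∑ d, K a (i s) (Function.update i s a j) d *
    (τ (Function.update (Function.update i s a) j d))) := by
    intro _
    simp only [mul_sum, mul_neg]
    refine sum_congr rfl fun s _ => sum_congr rfl fun a _ => ?_
    congr 1
    exact sum_congr rfl fun s _ => sum_congr rfl fun a _ => by ring
  rw [h1 τ]
  ring

theorem condL3 : CondL 3 UU gg GG := by
  intro x hx e he T hT
  rw [redG x e he T]
  obtain ⟨τ, hτ⟩ : ∃ τ : (Fin 3 → Fin 4) → ℝ, τ = fun i => T (e ∘ i) := ⟨_, rfl⟩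
  rw [← hτ]
  have hsy : Sy (fun a b c => τ ![a, b, c]) := by
    subst hτ
    refine ⟨fun a b c => ?_, fun a b c => ?_⟩
    · have h := hT (Equiv.swap 0 1) (e ∘ ![a, b, c])
      have h2 : (e ∘ ![a, b, c]) ∘ (Equiv.swap (0 : Fin 3) 1) = e ∘ ![b, a, c] := by
        funext i
        fin_cases i <;> rfl
      rw [h2] at h
      exact h.symm
    · have h := hT (Equiv.swap 1 2) (e ∘ ![a, b, c])
      have h2 : (e ∘ ![a, b, c]) ∘ (Equiv.swap (1 : Fin 3) 2) = e ∘ ![a, c, b] := by
        funext i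
        fin_cases i <;> rfl
      rw [h2] at h
      exact h.symm
  by_contra hneg
  push Not at hneg
  set N := ∑ i, τ i ^ 2 with hN
  have hN0 : 0 ≤ N := sum_nonneg fun i _ => sq_nonneg _
  have hNpos : 0 < N := by
    rcases hN0.lt_or_eq with h | h
    · exact h
    · exfalso
      have h0 : ∀ i, τ i = 0 := by
        intro i
        have h1 := (sum_eq_zero_iff_of_nonneg (fun i _ => sq_nonneg (τ i))).1 (hN.symm.trans h.symm)
          i (mem_univ i)
        exact pow_eq_zero_iff (by norm_num) |>.1 h1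
      have : PP (KK x e) τ = 0 := by
        unfold PP
        exact sum_eq_zero fun i _ => by rw [h0 i, mul_zero]
      linarith
  refine hx.2 ⟨⟨x, e, fun i => (√N)⁻¹ * τ i⟩, ⟨?_, he, ?_, ?_, ?_⟩, rfl⟩
  · rw [Metric.mem_closedBall, dist_zero_right]
    have hτ1 : ∀ i, |(√N)⁻¹ * τ i| ≤ 1 := by
      intro i
      rw [abs_mul, abs_of_pos (inv_pos.2 (Real.sqrt_pos.2 hNpos)), inv_mul_le_iff₀
        (Real.sqrt_pos.2 hNpos), mul_one]
      apply Real.abs_le_sqrt
      exact single_le_sum (f := fun i => τ i ^ 2) (fun i _ => sq_nonneg _) (mem_univ i)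
    have hx1 : ‖x‖ ≤ 1 := by
      have := hx.1
      rw [Metric.mem_ball, dist_zero_right] at this
      exact this.le
    have he1 : ‖e‖ ≤ 1 := by
      rw [pi_norm_le_iff_of_nonneg zero_le_one]
      intro a
      rw [pi_norm_le_iff_of_nonneg zero_le_one]
      intro i
      rw [Real.norm_eq_abs]
      have h1 := comp_le x (e a) i
      rw [he a a, if_pos rfl] at h1
      exact (sq_le_one_iff_abs_le_one _).1 h1
    refine norm_prod_le_iff.2 ⟨hx1, norm_prod_le_iff.2 ⟨he1, ?_⟩⟩
    rw [pi_norm_le_iff_of_nonneg zero_le_one]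
    exact hτ1
  · exact ⟨fun a b c => congrArg ((√N)⁻¹ * ·) (hsy.s12 a b c),
      fun a b c => congrArg ((√N)⁻¹ * ·) (hsy.s23 a b c)⟩
  · simp only [mul_pow]
    rw [← mul_sum, ← hN, inv_pow, Real.sq_sqrt hN0]
    exact inv_mul_cancel₀ hNpos.ne'
  · show PP (KK x e) (fun i => (√N)⁻¹ * τ i) ≤ 0
    rw [PP_smul]
    exact mul_nonpos_of_nonneg_of_nonpos (sq_nonneg _) hneg.le

end Pool.Agent.X181.LK
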