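import Pool.Agent.X181.LK.Defs
import Pool.Agent.X181.LK.Poly

/-!
# Reduction of the curvature term to components
-/

set_option autoImplicit false

namespace Pool.Agent.X181.LK

open Finset

variable {n : ℕ} {b : (Fin n → ℝ) → (Fin n → ℝ) → ℝ}
  (hadd : ∀ u u' v, b (u + u') v = b u v + b u' v)
  (hsmul : ∀ (r : ℝ) u v, b (r • u) v = r * b u v)

include hadd hsmul in
theorem b_sum {ι : Type*} (s : Finset ι) (c : ι → ℝ) (e : ι → Fin n → ℝ) (v : Fin n → ℝ) :
    b (∑ d ∈ s, c d • e d) v = ∑ d ∈ s, c d * b (e d) v := by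
  classical
  induction s using Finset.induction_on with
  | empty =>
    have := hsmul 0 0 v
    simpa using this
  | insert a s ha ih => rw [sum_insert ha, sum_insert ha, hadd, hsmul, ih]

include hadd hsmul in
/-- expansion of a vector in an orthonormal basis -/
theorem expand {e : Fin n → Fin n → ℝ} (he : ∀ i j, b (e i) (e j) = if i = j then 1 else 0)
    (v : Fin n → ℝ) : v = ∑ d, b v (e d) • e d := by
  have hli : LinearIndependent ℝ e := by
    rw [Fintype.linearIndependent_iff]
    intro c hc i
    have h1 := b_sum hadd hsmul univ c e (e i)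
    rw [hc] at h1
    have h0 : b 0 (e i) = 0 := by
      have := hsmul 0 0 (e i)
      simpa using this
    rw [h0] at h1
    simp only [he] at h1
    simpa using h1.symm
  by_cases hn : n = 0
  · subst hn
    exact Subsingleton.elim _ _
  have : Nonempty (Fin n) := ⟨⟨0, Nat.pos_of_ne_zero hn⟩⟩
  let B := basisOfLinearIndependentOfCardEqFinrank hli (by simp)
  have hB : ∀ i, B i = e i := fun i => by
    simp [B, coe_basisOfLinearIndependentOfCardEqFinrank]
  have h1 := B.sum_repr v
  simp only [hB] at h1
  have h2 : ∀ i, b v (e i) = B.repr v i := by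
    intro i
    have h3 := b_sum hadd hsmul univ (fun d => B.repr v d) e (e i)
    rw [h1] at h3
    rw [h3]
    simp [he]
  simp only [h2]
  exact h1.symm

theorem red {k : ℕ} (Γ : (Fin n → ℝ) → (Fin n → ℝ) →L[ℝ] (Fin n → ℝ) →L[ℝ] Fin n → ℝ)
    (x : Fin n → ℝ) (e : Fin n → Fin n → ℝ) (K : Fin n → Fin n → Fin n → Fin n → ℝ)
    (hK : ∀ a b c, Riem Γ x (e a) (e b) (e c) = ∑ d, K a b c d • e d)
    (T : MultilinearMap ℝ (fun _ : Fin k => Fin n → ℝ) ℝ) :
    ∑ i : Fin k → Fin n, RicL Γ x e T (e ∘ i) * T (e ∘ i) = PP K fun i => T (e ∘ i) := by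
  unfold PP
  refine sum_congr rfl fun i _ => ?_
  congr 1
  unfold RicL
  refine sum_congr rfl fun s _ => sum_congr rfl fun a _ => ?_
  unfold act
  congr 1
  refine sum_congr rfl fun j _ => ?_
  have h1 : Function.update (e ∘ i) s (e a) = e ∘ Function.update i s a :=
    (Function.comp_update e i s a).symm
  rw [h1]
  simp only [Function.comp_apply]
  rw [hK, MultilinearMap.map_update_sum]
  refine sum_congr rfl fun d _ => ?_
  rw [MultilinearMap.map_update_smul, smul_eq_mul]
  congr 2
  exact (Function.comp_update e (Function.update i s a) j d).symm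

end Pool.Agent.X181.LK
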